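import Pool.Agent.R256.Circ4

/-!
# Weighted products of distances on the unit circle

For points `z_1, …, z_r` of the unit circle and weights `p_j ≥ 0` with sum `r` there is a point
`w` of the unit circle with `∏ |w - z_j| ^ p_j ≥ 2`. The power `0 ^ 0` of real numbers is `1`
in Mathlib, which is the convention of the problem.
-/

set_option autoImplicit false

open Pool.Agent.R256.Circ

namespace Pool.Agent.Results.MP_280d4a_an.WeightedProduct

/-- **Weighted products of distances on the unit circle.** For every `r ≥ 1`, all points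
`z_1, …, z_r` of the unit circle and all weights `p_1, …, p_r ≥ 0` with sum `r` there is a point
`w` of the unit circle with `∏ |w - z_j| ^ p_j ≥ 2`. -/
theorem result (r : ℕ) (hr : 1 ≤ r) (z : Fin r → ℂ) (hz : ∀ j, ‖z j‖ = 1) (p : Fin r → ℝ)
    (hp : ∀ j, 0 ≤ p j) (hsum : ∑ j, p j = r) :
    ∃ w : ℂ, ‖w‖ = 1 ∧ 2 ≤ ∏ j, ‖w - z j‖ ^ (p j) := by
  have hr' : (0:ℝ) < r := by exact_mod_cast hr
  set σ : Fin r → ℝ := fun j => p j / r with hσdef
  set α : Fin r → ℝ := fun j => Complex.arg (z j) with hαdef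
  have hσ : ∀ j, 0 ≤ σ j := fun j => div_nonneg (hp j) hr'.le
  have hs : ∑ j, σ j = 1 := by
    rw [hσdef, ← Finset.sum_div, hsum, div_self hr'.ne']
  have hzz : ∀ j, zz (α j) = z j := by
    intro j
    have h := Complex.norm_mul_exp_arg_mul_I (z j)
    rw [hz j, Complex.ofReal_one, one_mul] at h
    rw [zz, circleMap, Complex.ofReal_one, one_mul, zero_add]
    exact h
  set F : ℂ → ℝ := fun w => ∏ j, ‖w - z j‖ ^ (p j) with hF
  have hFc : Continuous F := by
    rw [hF]
    refine continuous_finsetProd _ fun j _ => ?_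
    exact (by fun_prop : Continuous fun w : ℂ => ‖w - z j‖).rpow_const fun _ => Or.inr (hp j)
  obtain ⟨w, hw, hmax⟩ := (isCompact_sphere (0:ℂ) 1).exists_isMaxOn
    (NormedSpace.sphere_nonempty.mpr zero_le_one) hFc.continuousOn
  refine ⟨w, by simpa using hw, ?_⟩
  have hrel : ∀ θ, Good σ α θ → F (zz θ) = Real.exp (r * U σ α θ) := by
    intro θ hθ
    rw [U_eq, Finset.mul_sum, Real.exp_sum]
    refine Finset.prod_congr rfl fun j _ => ?_
    by_cases hj : p j = 0
    · simp [hσdef, hj]
    have hσj : σ j ≠ 0 := div_ne_zero hj hr'.ne'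
    have h1 : 0 < ‖zz θ - z j‖ := by
      rw [← hzz j, norm_zz_sub]
      exact abs_pos.mpr (by simpa using hθ j hσj)
    rw [hzz j, Real.rpow_def_of_pos h1, hσdef]
    congr 1
    field_simp
  have hFw : 0 < F w := by
    obtain ⟨θ, hθ⟩ := (ae_Good σ α).exists
    have h1 : F (zz θ) ≤ F w := hmax (by simp [norm_zz])
    rw [hrel θ hθ] at h1
    exact lt_of_lt_of_le (Real.exp_pos _) h1
  have hm : ∀ θ, Good σ α θ → U σ α θ ≤ Real.log (F w) / r := by
    intro θ hθ
    have h1 : F (zz θ) ≤ F w := hmax (by simp [norm_zz])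
    rw [hrel θ hθ] at h1
    rw [le_div_iff₀ hr', mul_comm]
    exact (Real.le_log_iff_exp_le hFw).mpr h1
  have h2 := main hσ hs hm
  have h3 : Real.log 2 ≤ Real.log (F w) := by
    rw [div_le_div_iff_of_pos_right hr'] at h2
    exact h2
  exact (Real.log_le_log_iff (by norm_num) hFw).mp h3

end Pool.Agent.Results.MP_280d4a_an.WeightedProduct
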